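import Pool.Agent.H37.CF.Basic

/-!
# Complete family, algebra: the ring class group exists (row CRGE)
-/

set_option autoImplicit false
set_option linter.unusedSectionVars false

open NumberField
open scoped nonZeroDivisors

namespace Pool.Agent.H10.CF

open Pool.Agent.H31.CN Pool.Agent.H95.CF Pool.Agent.H28.RC Pool.Agent.H37.CF
open Pool.Agent.H91.CF (ch npt npD xit xiD pit piD TrQ NRe NVc RQ nn rr ww fmD Fu)
open Pool.Agent.H24.Cls (Quad)

section

variable (K : Type) [Field K] [NumberField K] (f : ℕ)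

/-- the monoid of the ideals prime to `f` -/
def MM : Submonoid (Ideal (𝓞 K)) where
  carrier := {I | Pr K f I}
  one_mem' := by
    rw [Set.mem_ofPred_eq, Ideal.one_eq_top]
    exact pr_top K f
  mul_mem' := fun h1 h2 => pr_mul.2 ⟨h1, h2⟩

/-- the congruence relation -/
def cn : Con (MM K f) where
  r := fun I J => ∃ a b : 𝓞 K, Rat K f f a ∧ Rat K f f b ∧
    Ideal.span {a} * (I : Ideal (𝓞 K)) = Ideal.span {b} * (J : Ideal (𝓞 K))
  iseqv := by
    refine ⟨fun I => ⟨1, 1, rat_one, rat_one, rfl⟩, ?_, ?_⟩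
    · rintro I J ⟨a, b, ha, hb, h⟩
      exact ⟨b, a, hb, ha, h.symm⟩
    · rintro I J L ⟨a, b, ha, hb, h⟩ ⟨c, d, hc, hd, h'⟩
      refine ⟨c * a, b * d, rat_mul hc ha, rat_mul hb hd, ?_⟩
      rw [← Ideal.span_singleton_mul_span_singleton, ← Ideal.span_singleton_mul_span_singleton,
        mul_assoc, h, mul_assoc, ← h', mul_left_comm]
  mul' := by
    rintro I J L M ⟨a, b, ha, hb, h⟩ ⟨c, d, hc, hd, h'⟩
    refine ⟨a * c, b * d, rat_mul ha hc, rat_mul hb hd, ?_⟩
    rw [← Ideal.span_singleton_mul_span_singleton, ← Ideal.span_singleton_mul_span_singleton,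
      Submonoid.coe_mul, Submonoid.coe_mul, mul_mul_mul_comm, h, h', mul_mul_mul_comm]

variable {K f}

theorem unit_of (hINV : Pool.Agent.H37.CF.T_INV) (hf : 1 ≤ f) (g : (cn K f).Quotient) : IsUnit g := by
  induction g using Con.induction_on with
  | H x =>
    obtain ⟨I, hI⟩ := x
    obtain ⟨J, hJ, hIJ, hN⟩ := hINV K f I hf hI
    have hI0 : Ideal.absNorm I ≠ 0 := by
      rw [Ne, Ideal.absNorm_eq_zero_iff]
      exact hI.1
    have h1 : ((⟨I, hI⟩ : MM K f) : (cn K f).Quotient) * ((⟨J, hJ⟩ : MM K f) : (cn K f).Quotient)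
        = 1 := by
      rw [← Con.coe_mul, ← Con.coe_one]
      refine (Con.eq _).2 ⟨1, (Ideal.absNorm I : 𝓞 K), rat_one,
        rat_nat (by omega) hN, ?_⟩
      rw [Submonoid.coe_mul, Submonoid.coe_one, mul_one, Ideal.span_singleton_one]
      change ⊤ * (I * J) = _
      rw [Ideal.top_mul, hIJ]
    exact IsUnit.of_mul_eq_one _ h1

/-- the group is finite -/
theorem finite_of (hINV : Pool.Agent.H37.CF.T_INV) (hf : 1 ≤ f) {G : Type} [CommGroup G]
    {cl : Ideal (𝓞 K) → G} (h : RG K f G cl) : Finite G := by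
  classical
  choose R hR hRg using h.sur
  have hRn : ∀ g, R g ∈ (Ideal (𝓞 K))⁰ := fun g => mem_nonZeroDivisors_of_ne_zero (hR g).1
  let m : G → ClassGroup (𝓞 K) := fun g => ClassGroup.mk0 ⟨R g, hRn g⟩
  -- a reference element in each class
  have href : ∀ c : ClassGroup (𝓞 K), ∃ g0 : G, ∀ g, m g = c → m g0 = c := by
    intro c
    by_cases hc : ∃ g, m g = c
    · obtain ⟨g, hg⟩ := hc
      exact ⟨g, fun _ _ => hg⟩
    · exact ⟨1, fun g hg => (hc ⟨g, hg⟩).elim⟩
  choose r hr using href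
  choose J hJ hIJ hN using fun g => hINV K f (R g) hf (hR g)
  have hJn : ∀ g, J g ∈ (Ideal (𝓞 K))⁰ := fun g => mem_nonZeroDivisors_of_ne_zero (hJ g).1
  have hprin : ∀ g, ∃ x : 𝓞 K, R g * J (r (m g)) = Ideal.span {x} := by
    intro g
    have h1 : m (r (m g)) = m g := hr (m g) g rfl
    have h2 : ClassGroup.mk0 (⟨R g, hRn g⟩ * ⟨J (r (m g)), hJn _⟩ : (Ideal (𝓞 K))⁰) = 1 := by
      rw [map_mul]
      change m g * _ = 1
      rw [← h1]
      change ClassGroup.mk0 ⟨R (r (m g)), hRn _⟩ * _ = 1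
      rw [h1, ← map_mul]
      rw [ClassGroup.mk0_eq_one_iff]
      change (R (r (m g)) * J (r (m g))).IsPrincipal
      rw [hIJ]
      exact ⟨⟨_, rfl⟩⟩
    rw [ClassGroup.mk0_eq_one_iff] at h2
    obtain ⟨x, hx⟩ := h2
    exact ⟨x, hx⟩
  choose x hx using hprin
  have hf0 : Ideal.span {(f : 𝓞 K)} ≠ ⊥ := by
    rw [Ne, Ideal.span_singleton_eq_bot]
    exact_mod_cast (by omega : f ≠ 0)
  have : Finite (𝓞 K ⧸ Ideal.span {(f : 𝓞 K)}) := Ideal.finiteQuotientOfFreeOfNeBot _ hf0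
  refine Finite.of_injective (fun g => ((m g, Ideal.Quotient.mk (Ideal.span {(f : 𝓞 K)}) (x g)) :
    ClassGroup (𝓞 K) × (𝓞 K ⧸ Ideal.span {(f : 𝓞 K)}))) ?_
  intro g g' hgg
  rw [Prod.mk.injEq] at hgg
  obtain ⟨h1, h2⟩ := hgg
  rw [Ideal.Quotient.eq] at h2
  have hp : ∀ g, Pr K f (Ideal.span {x g}) := fun g => by
    rw [← hx g]
    exact pr_mul.2 ⟨hR g, hJ _⟩
  have h3 : cl (Ideal.span {x g}) = cl (Ideal.span {x g'}) :=
    cl_congr h (hp g) (hp g') (r := 1) (by rwa [Int.cast_one, one_mul])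
  rw [← hx g, ← hx g', h.mul _ _ (hR g) (hJ _), h.mul _ _ (hR g') (hJ _), hRg, hRg, h1] at h3
  exact mul_right_cancel h3

end

theorem pf_RGE (_hCOP : T_COP) (hINV : Pool.Agent.H37.CF.T_INV) : T_RGE := by
  intro K _ _ f hf
  classical
  let _ : CommGroup (cn K f).Quotient := commGroupOfIsUnit (unit_of hINV hf)
  let cl : Ideal (𝓞 K) → (cn K f).Quotient := fun I =>
    if h : Pr K f I then ((⟨I, h⟩ : MM K f) : (cn K f).Quotient) else 1
  have hcl : ∀ (I : Ideal (𝓞 K)) (h : Pr K f I), cl I = ((⟨I, h⟩ : MM K f) : (cn K f).Quotient) :=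
    fun I h => dif_pos h
  have hRG : RG K f (cn K f).Quotient cl := by
    refine ⟨?_, ?_, ?_⟩
    · intro I J hI hJ
      rw [hcl I hI, hcl J hJ, hcl (I * J) (pr_mul.2 ⟨hI, hJ⟩)]
      rfl
    · intro g
      induction g using Con.induction_on with
      | H y => exact ⟨y.1, y.2, hcl y.1 y.2⟩
    · intro I J hI hJ
      rw [hcl I hI, hcl J hJ]
      exact Con.eq _
  exact ⟨(cn K f).Quotient, inferInstance, finite_of hINV hf hRG, cl, hRG⟩

end Pool.Agent.H10.CF
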