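import Pool.Agent.H31.CF.U3
import Pool.Agent.H56.CN.ORB

/-!
# Complete family, part U: unfolding with general weights of positive sum (row UORW)
-/

set_option autoImplicit false

open MeasureTheory Set Filter
open scoped Real Matrix MatrixGroups

namespace Pool.Agent.H10.CFU

open Pool.Agent.H31.CN Pool.Agent.H91.CF Pool.Agent.H31.CF
open Pool.Agent.H56.CN (J fr cd fr_mem ust US_eq ust_summable gvE gv_zero gv_inv inv_gv P Wsum
  unfold_Z Z_inv orb orb_eq_iff card_two)

section

variable {Δ : ℕ} {w : QF → ℤ × ℤ → ℝ}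

/-- the stabilizers are finite -/
theorem card_pos (hACT : T_ACT) (hVGR : T_VGR) (hΔ : 0 < Δ) {R : QF} (hR : R ∈ FD Δ) :
    0 < Nat.card {g : SL(2, ℤ) // act R g = R} := by
  classical
  obtain ⟨K', hK'⟩ := hVGR Δ 1 hΔ one_pos
  obtain ⟨u, hu⟩ : ∃ u : QF → ℤ × ℤ → ℝ, u = fun Q v =>
      if v = 0 then 0 else Real.exp (-(1 * (val Q v : ℝ))) := ⟨_, rfl⟩
  have hs : Summable fun v => u R v := by
    refine Summable.of_norm_bounded (hK' R hR).1 fun v => ?_
    rw [hu]
    dsimp only
    split_ifs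
    · rw [norm_zero]
      exact (Real.exp_pos _).le
    · rw [Real.norm_of_nonneg (Real.exp_pos _).le]
  have hinv : ∀ Q ∈ FD Δ, ∀ g v, u (act Q g) v = u Q (gv g v) := by
    intro Q hQ g v
    rw [hu]
    dsimp only
    have h1 : gv g v = 0 ↔ v = 0 := by
      constructor
      · intro h
        have h2 := inv_gv hACT g v
        rw [h, gv_zero] at h2
        exact h2.symm
      · rintro rfl
        exact gv_zero g
    simp only [h1]
    rw [(hACT Q g g v).1]
  have h1 := unfold_Z (w := u) hACT hΔ hR (by rw [hu]; simp) hinv hs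
  have h2 : 0 < ∑' v, u R v := by
    have h3 : ∀ v, 0 ≤ u R v := by
      intro v
      rw [hu]
      dsimp only
      split_ifs
      · exact le_refl _
      · exact (Real.exp_pos _).le
    refine hs.tsum_pos h3 ((1, 0) : ℤ × ℤ) ?_
    rw [hu]
    dsimp only
    rw [if_neg (by
      intro h
      have := congrArg Prod.fst h
      simp at this)]
    exact Real.exp_pos _
  rcases Nat.eq_zero_or_pos (Nat.card {g : SL(2, ℤ) // act R g = R}) with h3 | h3
  · rw [h3, Nat.cast_zero, zero_mul] at h1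
    linarith
  · exact h3

open scoped Classical in
/-- the sum over a class -/
theorem fibre_one (hACT : T_ACT) {R : QF} (hw0 : ∀ Q ∈ FD Δ, w Q 0 = 0) :
    ∑' x : {x : J // orb (fr Δ x) = orb R}, ust Δ (fun R e => w R ((e : ℤ), 0))
      (fun _ => 1) x.1 = Wsum Δ w R := by
  have h1 : ∑' x : {x : J // orb (fr Δ x) = orb R}, ust Δ (fun R e => w R ((e : ℤ), 0))
      (fun _ => 1) x.1 = ∑' x : J, {x : J | orb (fr Δ x) = orb R}.indicator
        (ust Δ (fun R e => w R ((e : ℤ), 0)) (fun _ => 1)) x :=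
    tsum_subtype {x : J | orb (fr Δ x) = orb R} _
  rw [h1, Wsum]
  refine tsum_congr fun x => ?_
  by_cases hc : cd Δ x
  · by_cases ho : orb (fr Δ x) = orb R
    · rw [indicator_of_mem (show x ∈ {x : J | orb (fr Δ x) = orb R} from ho), ust, if_pos hc,
        mul_one]
      obtain ⟨g, hg⟩ := (orb_eq_iff hACT _ _).1 ho
      rcases Nat.eq_zero_or_pos x.1.1 with he | he
      · rw [if_neg]
        · simp only [he, Nat.cast_zero]
          exact hw0 _ (fr_mem hc)
        · rintro ⟨g', h3, -⟩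
          omega
      · rw [if_pos ⟨g, ⟨he, hc⟩, hg⟩]
    · rw [indicator_of_notMem (show x ∉ {x : J | orb (fr Δ x) = orb R} from ho), if_neg]
      rintro ⟨g, -, hg⟩
      exact ho ((orb_eq_iff hACT _ _).2 ⟨g, hg⟩)
  · rw [if_neg (fun ⟨g, h3, _⟩ => hc h3.2)]
    apply indicator_apply_eq_zero.2
    intro _
    unfold ust
    rw [if_neg hc]

end

open scoped Classical in
theorem pf_ORW (hACT : T_ACT) (hVGR : T_VGR) : T_ORW := by
  intro Δ k K c w hΔ hc hw0 hinv hbd hZ0 ι _ Q hQ hQQ
  obtain ⟨K', hK'⟩ := hVGR Δ c hΔ hc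
  have hval : ∀ R ∈ FD Δ, ∀ v : ℤ × ℤ, |w R v| ≤ (|K| * (1 + (R.1 : ℝ)) ^ k) *
      Real.exp (-(c * val R v)) := by
    intro R hR v
    have hR1 : (0 : ℝ) < R.1 := by exact_mod_cast hR.1
    by_cases hv : v = 0
    · rw [hv, hw0 R hR, abs_zero]
      positivity
    · exact (hbd R hR v hv).trans (mul_le_mul_of_nonneg_right
        (mul_le_mul_of_nonneg_right (le_abs_self K) (by positivity)) (Real.exp_pos _).le)
  have hsum : ∀ R ∈ FD Δ, Summable fun v => w R v := fun R hR =>
    Summable.of_norm_bounded ((hK' R hR).1.mul_left (|K| * (1 + (R.1 : ℝ)) ^ k))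
      fun v => hval R hR v
  obtain ⟨ω, hω⟩ : ∃ ω : QF → ℕ → ℝ, ω = fun (R : QF) (e : ℕ) => w R ((e : ℤ), 0) :=
    ⟨_, rfl⟩
  rw [← hω]
  have hust : Summable (ust Δ ω (fun _ => 1)) := by
    have h0 : Summable (ust Δ (fun R e => ω R e / (1 + (R.1 : ℝ)) ^ k)
        (fun R => (1 + (R.1 : ℝ)) ^ k)) := by
      refine ust_summable (K := K) (K' := 1) (k := k) hc ?_ ?_ ?_
      · intro R hR
        rw [hω]
        dsimp only
        have h3 : w R (((0 : ℕ) : ℤ), 0) = 0 := hw0 R hR
        rw [h3, zero_div]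
      · intro R hR e he
        have hR1 : (0 : ℝ) < R.1 := by exact_mod_cast hR.1
        have hR2 : (0 : ℝ) < (1 + (R.1 : ℝ)) ^ k := by positivity
        rw [hω]
        dsimp only
        have h1 := hbd R hR ((e : ℤ), 0) (by
          intro h
          have := congrArg Prod.fst h
          simp only [Prod.fst_zero] at this
          omega)
        have h2 : ((val R ((e : ℤ), 0) : ℤ) : ℝ) = (e : ℝ) ^ 2 * R.1 := by
          unfold val
          push_cast
          ring
        rw [h2] at h1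
        rw [abs_div, abs_of_pos hR2, div_le_iff₀ hR2]
        refine h1.trans (le_of_eq ?_)
        ring
      · intro R hR
        have hR1 : (0 : ℝ) < R.1 := by exact_mod_cast hR.1
        rw [abs_of_nonneg (by positivity), one_mul]
    refine h0.congr fun x => ?_
    unfold ust
    by_cases h : cd Δ x
    · rw [if_pos h, if_pos h]
      have hR1 : (0 : ℝ) < (fr Δ x).1 := by exact_mod_cast (fr_mem h).1
      have hR2 : (1 + ((fr Δ x).1 : ℝ)) ^ k ≠ 0 := by positivity
      rw [div_mul_cancel₀ _ hR2, mul_one]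
    · rw [if_neg h, if_neg h]
  rw [US_eq Δ ω _ hust]
  -- the sum over the classes
  set cl : J → Set QF := fun x => orb (fr Δ x) with hcl
  obtain ⟨a, ha⟩ : ∃ a : Set QF → ℝ, a = fun O => ∑' x : {x : J // cl x = O},
      ust Δ ω (fun _ => 1) x.1 := ⟨_, rfl⟩
  have hs1 : Summable fun z : Σ O : Set QF, {x : J // cl x = O} =>
      ust Δ ω (fun _ => 1) z.2.1 :=
    ((Equiv.sigmaFiberEquiv cl).summable_iff (f := ust Δ ω (fun _ => 1))).2 hust
  have e1 : ∑' x : J, ust Δ ω (fun _ => 1) x = ∑' O, a O := by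
    rw [← (Equiv.sigmaFiberEquiv cl).tsum_eq]
    have := hs1.tsum_sigma
    rw [ha]
    exact this
  have hsa : Summable a := by
    rw [ha]
    exact hs1.sigma
  have hfib : ∀ R, a (orb R) = Wsum Δ w R := by
    intro R
    rw [ha, hω]
    exact fibre_one hACT hw0
  have hZW : ∀ R ∈ FD Δ, ∑' v, w R v =
      (Nat.card {g : SL(2, ℤ) // act R g = R} : ℝ) * Wsum Δ w R := fun R hR =>
    unfold_Z hACT hΔ hR (hw0 R hR) hinv (hsum R hR)
  have hpos : ∀ O, 0 ≤ a O := by
    intro O
    by_cases h : ∃ x : J, cd Δ x ∧ cl x = O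
    · obtain ⟨x, hx, hO⟩ := h
      have hR := fr_mem hx
      rw [← hO, hcl]
      dsimp only
      rw [hfib]
      have h1 := hZ0 _ hR
      rw [hZW _ hR] at h1
      have h2 : (0 : ℝ) < Nat.card {g : SL(2, ℤ) // act (fr Δ x) g = fr Δ x} := by
        exact_mod_cast card_pos hACT hVGR hΔ hR
      exact nonneg_of_mul_nonneg_right h1 h2
    · rw [ha]
      refine tsum_nonneg fun x => ?_
      have h1 : ¬ cd Δ x.1 := fun h2 => h ⟨x.1, h2, x.2⟩
      unfold ust
      rw [if_neg h1]
  have hinj : Function.Injective fun i => orb (Q i) := by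
    intro i j hij
    obtain ⟨g, hg⟩ := (orb_eq_iff hACT _ _).1 hij
    exact (hQQ i j g hg).1
  have hterm : ∀ i, ∑' v, w (Q i) v = 2 * a (orb (Q i)) := by
    intro i
    rw [hfib, hZW _ (hQ i), card_two (Q i) hACT fun g hg => (hQQ i i g hg).2]
    push_cast
    ring
  rw [e1]
  calc ∑ i, ∑' v, w (Q i) v = ∑ i, 2 * a (orb (Q i)) :=
        Finset.sum_congr rfl fun i _ => hterm i
    _ = 2 * ∑ O ∈ Finset.univ.image (fun i => orb (Q i)), a O := by
        rw [← Finset.mul_sum, Finset.sum_image fun i _ j _ h => hinj h]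
    _ ≤ 2 * ∑' O, a O :=
        mul_le_mul_of_nonneg_left (hsa.sum_le_tsum _ fun O _ => hpos O) (by norm_num)

end Pool.Agent.H10.CFU
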